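import Pool.Agent.H72.EN.Targets

/-!
# A geometric sum with steps of length 2000

The tail sum from m is (4000 - m % 2000) (1/2)^(m / 2000).
-/

set_option autoImplicit false

open Finset

namespace Pool.Agent.H35.ENL

/-- The tail sum. -/
noncomputable def tl (m : ℕ) : ℝ := (4000 - (m % 2000 : ℕ)) * ((1 : ℝ) / 2) ^ (m / 2000)

theorem tl_step (m : ℕ) : tl m - tl (m + 1) = ((1 : ℝ) / 2) ^ (m / 2000) := by
  unfold tl
  by_cases h : m % 2000 = 1999
  · have h1 : (m + 1) % 2000 = 0 := by omega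
    have h2 : (m + 1) / 2000 = m / 2000 + 1 := by omega
    rw [h, h1, h2, pow_succ]
    push_cast
    ring
  · have h1 : (m + 1) % 2000 = m % 2000 + 1 := by omega
    have h2 : (m + 1) / 2000 = m / 2000 := by omega
    rw [h1, h2]
    push_cast
    ring

theorem tl_nonneg (m : ℕ) : 0 ≤ tl m := by
  unfold tl
  have h : ((m % 2000 : ℕ) : ℝ) ≤ 2000 := by
    exact_mod_cast (Nat.mod_lt m (by norm_num : 0 < 2000)).le
  have : (0 : ℝ) ≤ 4000 - (m % 2000 : ℕ) := by linarith
  positivity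

theorem tl_le (m : ℕ) : tl m ≤ 4000 * ((1 : ℝ) / 2) ^ (m / 2000) := by
  unfold tl
  have h : (0 : ℝ) ≤ ((m % 2000 : ℕ) : ℝ) := Nat.cast_nonneg _
  have h2 : (0 : ℝ) ≤ ((1 : ℝ) / 2) ^ (m / 2000) := by positivity
  nlinarith

theorem sum_tl (m₀ k : ℕ) :
    ∑ m ∈ Ico m₀ (m₀ + k), ((1 : ℝ) / 2) ^ (m / 2000) = tl m₀ - tl (m₀ + k) := by
  induction k with
  | zero => simp
  | succ k ih =>
    rw [← add_assoc, Finset.sum_Ico_succ_top (by omega), ih, ← tl_step]
    ring

theorem pf_GSM : Pool.Agent.H72.EN.T_GSM := by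
  intro m₀ me
  by_cases h : m₀ ≤ me + 1
  · obtain ⟨k, hk⟩ := Nat.exists_eq_add_of_le h
    have e : Icc m₀ me = Ico m₀ (m₀ + k) := by
      rw [← hk]
      ext x
      simp only [mem_Icc, mem_Ico]
      omega
    rw [e, sum_tl]
    have h1 := tl_nonneg (m₀ + k)
    have h2 := tl_le m₀
    linarith
  · have e : Icc m₀ me = ∅ := by
      apply Finset.Icc_eq_empty
      omega
    rw [e, Finset.sum_empty]
    positivity

end Pool.Agent.H35.ENL
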